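import Pool.Agent.H65.BP.Quasi
import Pool.Agent.H65.BP.Strict

/-!
# The time hierarchy for bounded-error probabilistic computation relative to oracles

Probabilistic oracle Turing machines and the classes `BPTIME A t` (the class BPTIME(t) relative to
the oracle `A`) are defined in `Pool.Agent.H65.BP.TM`.

Theorem.

1. Let `t` be monotone with `n ^ ⌊log₂ n⌋ ≤ t(n)`, and assume that each iterate `t^[k]` is eventually
   bounded by `2^n`.  Then there is an oracle `A` such that BPTIME(s) = BPTIME(n) relative to `A` for
   all `s` with `n ≤ s(n)` which are bounded by a polynomial in `n` and an iterate of `t`.
2. In particular there is an oracle `A` such that BPTIME(s) = BPTIME(n) relative to `A` for all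
   quasipolynomial `s` with `n ≤ s(n)`, for example `s(n) = n ^ 100`.
3. There is an oracle relative to which BPTIME(n) is different from BPTIME(n ^ 100).

So neither answer to the question has a proof which relativizes.  Part 3 is easy.  Part 2 for
polynomial time bounds was claimed by Fortnow and Sipser (STOC 1989), who retracted it (STOC 1997).

Proof of 1.  The oracle encodes the language `L_i` of the `i`-th clocked machine `M_i` as follows:
most of the `8 ^ |x|` strings in the block `B(i, x)` (the strings `1^i 0 y`, where `y` is obtained
from `x` by inserting three bits after each bit of `x`) are in `A` if and only if `x` is in `L_i`.
A machine decodes this with one random query, in time `4 |x| + i + O(1)`.  Since the time bound of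
`M_i` is larger than the length of these queries, the computation of `M_i` on `x` may depend on many
blocks, also on `B(i, x)` itself.

The oracle is constructed in stages.  A condition consists of finitely many fixed values of the
oracle, a finite set `J` of machines, a number `N`, and for each `w = (i, x)` with `i ∈ J` and
`|x| ≥ N` a decision tree `T_w` of depth at most `t^[c](|x|)`; an oracle satisfies the condition if
it has the fixed values and for all such `w` at most a small fraction of the positions of `B(w)`
has a value different from the value of `T_w`.  For the next machine `M` there are two cases.  If
some oracle satisfying the condition makes `M` invalid for some input (the probability of acceptance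
is strictly between 1/3 and 2/3) then we fix the values needed for this.  Otherwise `M` is valid for
all inputs and all oracles satisfying the condition, and the main point is that then the answers of
`M` are computed, for all oracles satisfying a slightly stronger condition, by decision trees of
depth at most `t^[c'](|z|)`; these are used as the new trees.

The trees exist for the following reason.  Blocks are divided in layers, `B(i, x)` is in layer
`⌊log₂ |x|⌋`; a computation in time `τ` only asks for positions in layers up to `⌊log₂ τ⌋`.

* Repair (`Sys.exists_fix`): each oracle can be changed, layer by layer, so that all constraints
  hold; one changes a position of `B(w)` to the value of `T_w` unless it is read by a tree of the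
  same or a lower layer or protected.  So the value of `T_w` does not change later, and only few
  positions of `B(w)` are not corrected (`Cond.Good.few`).  In particular `M` is valid for all
  oracles satisfying the constraints of the layers up to `⌊log₂ τ⌋`.
* Counting (`Sys.heavy`): let `Y_1, Y_2, ...` be oracles near to `X`, where `Y_j` differs from `X`
  on a set `S_j`, and by corrections in blocks `B(w)` for which `T_w` changes its value.  If the
  sets `S_j` are disjoint then `T_w` changes its value for at most `d (1 + N)` of the `Y_j`, where
  `d` is the depth and `N` is the bound for the lower layers, as the paths of `X` and `Y_j` have a
  common position with different values.  So the answer of `M` is changed by at most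
  `H = 3 τ (1 + (2 d) ^ (number of layers))` of the `Y_j`.
* Small seeds (`Sys.exists_seed`): let `A` and `X'` satisfy the constraints, with different answers
  of `M`.  Reveal the oracle step by step (trees and blocks, ordered by layers); the default value
  of a position is the value of `A`, or the value of `T_w` if it is in a block `B(w)` for which `T_w`
  has changed its value.  A lexicographically minimal oracle with answer different from the one of
  `A` deviates from the default values at not more than `H` positions, since a flip of a deviating
  position (and repair) changes the answer, and one can apply the counting lemma.
* Certificates (`Sys.exists_cert`): by the counting lemma there are no `H + 1` disjoint seeds, so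
  there is a set of `H ^ 2` positions which forces the answer of `M`.
* Certificates give decision trees of depth `H ^ 4` by the usual argument (`exists_tree_of_cert`).
* Blocks and trees for very short strings are read completely (`Cond.Good.new_tree`).

Finally the oracle is obtained by compactness (`exists_oracle`); the machines are turned into trees
in `Link`, and the decoding machine is in `Sim`.

Proof of 3.  Let `v_n = 0^n 1^(n²+1) 0`, and let `B` contain all `0^n 1^j` with `j > n²` and some of
the strings `v_n`.  The language of all `x` with `v_|x| ∈ B` is decided in time `O(n²)`, and by
diagonalization one achieves that it is not in BPTIME(n), as machines running in linear time can not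
ask for `v_n`.
-/

set_option autoImplicit false

namespace Pool.Agent.Results.MP_bbef8d_lc.Relativization

open Pool.Agent.H65.BP

/-- **Relative to some oracle BPTIME(n) = BPTIME(n ^ 100), and relative to another one these classes
are different.** -/
theorem result :
    (∀ t : ℕ → ℕ, Monotone t → (∀ n, n ^ Nat.log 2 n ≤ t n) →
      (∀ k, ∃ n₀, ∀ n ≥ n₀, t^[k] n ≤ 2 ^ n) →
      ∃ A : List Bool → Bool, ∀ s : ℕ → ℕ, (∀ n, n ≤ s n) →
        (∃ k, ∀ n, s n ≤ (t^[k] n + n + 2) ^ k) →
        ∀ L : Set (List Bool), BPTIME A s L ↔ BPTIME A (fun n => n) L) ∧
    (∃ A : List Bool → Bool, ∀ s : ℕ → ℕ, (∀ n, n ≤ s n) →
      (∃ c, ∀ n, s n ≤ 2 ^ (Nat.log 2 n + 2) ^ c) →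
      ∀ L : Set (List Bool), BPTIME A s L ↔ BPTIME A (fun n => n) L) ∧
    ∃ (B : List Bool → Bool) (L : Set (List Bool)),
      BPTIME B (fun n => n ^ 100) L ∧ ¬ BPTIME B (fun n => n) L :=
  ⟨exists_collapse, exists_collapse_quasi, exists_strict⟩

end Pool.Agent.Results.MP_bbef8d_lc.Relativization
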